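import Pool.Agent.Q22.SubIndex

/-! Subsets with lower subindex `2` and prescribed infinite upper subindex. -/

namespace Pool.Agent.Results.MP_453038_al.LowerTwo

open Q22.SubIndex

universe u

/-- For every infinite cardinal `α` there are an abelian group `G` with a subset `A` such that
`|G:A|⁻ = 2` and `|G:A|⁺ = α`, and a non-abelian group `G` with a subset `A` such that
`|G:A|⁻ = 2` and `|G:A|⁺ = α`. -/
theorem result :
    ∀ α : Cardinal.{u}, Cardinal.aleph0 ≤ α →
      (∃ (G : Type u) (_ : Group G) (A : Set G), (∀ x y : G, x * y = y * x) ∧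
        lowerSubindex A = 2 ∧ upperSubindex A = α) ∧
      (∃ (G : Type u) (_ : Group G) (A : Set G), (∃ x y : G, x * y ≠ y * x) ∧
        lowerSubindex A = 2 ∧ upperSubindex A = α) := by
  intro α hα
  constructor
  · obtain ⟨A, h1, h2⟩ := exists_with α hα α.out (Cardinal.mk_out α) Unit
    exact ⟨_, inferInstance, A, fun x y => mul_comm x y, h1, h2⟩
  · obtain ⟨A, h1, h2⟩ := exists_with α hα α.out (Cardinal.mk_out α) (Equiv.Perm (Fin 3))
    refine ⟨_, inferInstance, A, ⟨(1, (1, Equiv.swap 0 1)), (1, (1, Equiv.swap 1 2)), ?_⟩, h1, h2⟩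
    intro h
    have h3 : Equiv.swap (0 : Fin 3) 1 * Equiv.swap 1 2 = Equiv.swap 1 2 * Equiv.swap 0 1 :=
      congrArg (fun z => z.2.2) h
    have h4 := Equiv.congr_fun h3 0
    revert h4
    decide

end Pool.Agent.Results.MP_453038_al.LowerTwo
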